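import Pool.Agent.H6.FI.TargetsB
import Pool.Agent.H6.FI.Lib

/-!
# MP_7500ea_al, board fi_modules: row GIS (multiplication by an extendible character)
-/

open scoped Classical ComplexConjugate
open FI AMc AMt

namespace Pool.Agent.H63.FI

section

variable {Γ : Type} [Group Γ] [Fintype Γ]

theorem sum_sub (N : Subgroup Γ) (f : Γ → ℂ) (hf : ∀ g, g ∉ N → f g = 0) :
    ∑ g, f g = ∑ x : N, f x := by
  have h1 : ∑ x : N, f x = ∑ g ∈ Finset.univ.filter (fun g => g ∈ N), f g := by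
    refine (Finset.sum_subtype _ (fun g => ?_) f).symm
    simp
  rw [h1, Finset.sum_filter]
  refine Finset.sum_congr rfl fun g _ => ?_
  by_cases hg : g ∈ N
  · rw [if_pos hg]
  · rw [if_neg hg, hf g hg]

theorem inner_type (G : Type) [Group G] [Fintype G] (f f' : G → ℂ) (hf : IsChar G f)
    (hf' : IsChar G f') : ∃ k : ℕ, ∑ g, f g * conj (f' g) = k * (Nat.card G : ℂ) := by
  obtain ⟨n, ρ, rfl⟩ := hf
  have h2 := ((FI.Lib.lA3 G).2.1 f' hf').2.1
  obtain ⟨m, σ, rfl⟩ := hf'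
  have hc0 : ((Nat.card G : ℕ) : ℂ) ≠ 0 := by
    exact_mod_cast Nat.card_pos.ne'
  have : Invertible (Nat.card G : ℂ) := invertibleOfNonzero hc0
  have h1 := Representation.card_inv_mul_sum_char_mul_char_eq_finrank σ ρ
  refine ⟨Module.finrank ℂ (Representation.IntertwiningMap σ ρ), ?_⟩
  rw [← h1]
  rw [mul_comm, ← mul_assoc, mul_inv_cancel₀ hc0, one_mul]
  exact Finset.sum_congr rfl fun g _ => by rw [h2]

theorem inner_sub (U : Subgroup Γ) (f f' : Γ → ℂ) (h0 : ∀ g, g ∉ U → f g = 0)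
    (hf : IsChar U (fun u => f u)) (hf' : IsChar U (fun u => f' u)) :
    ∃ k : ℕ, ∑ g, f g * conj (f' g) = k * (Nat.card U : ℂ) := by
  obtain ⟨k, hk⟩ := inner_type U _ _ hf hf'
  exact ⟨k, by rw [sum_sub U _ (fun g hg => by rw [h0 g hg, zero_mul])]; exact hk⟩

omit [Group Γ] in
theorem conj_sum_comm (f g : Γ → ℂ) :
    ∑ x, f x * conj (g x) = conj (∑ x, g x * conj (f x)) := by
  rw [map_sum]
  refine Finset.sum_congr rfl fun x _ => ?_
  rw [map_mul, Complex.conj_conj, mul_comm]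

/-- the constituents over an invariant character -/
theorem over_inv {M U : Subgroup Γ} (hMU : M ≤ U) (hn : ∀ u ∈ U, ∀ g ∈ M, u * g * u⁻¹ ∈ M)
    {θ : Γ → ℂ} (hθ : θ ∈ IrrS M) (hinv : ∀ u ∈ U, cj u θ = θ) {χ : Γ → ℂ} (hχ : χ ∈ IrrS U)
    (ho : Over χ θ) : ∃ a : ℕ, 0 < a ∧ ∀ x ∈ M, χ x = a * θ x := by
  obtain ⟨a, t, ha, ht, h1, -, -, h2⟩ := FI.Lib.lE3 Γ M U hMU hn χ hχ θ hθ ho
  have hst : stab U θ = U := by
    apply le_antisymm
    · intro u hu; exact hu.1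
    · intro u hu; exact ⟨hu, hinv u hu⟩
  rw [hst] at h1
  have hU : 0 < Nat.card U := Nat.card_pos
  have ht1 : t = 1 := by
    have : t * Nat.card U = 1 * Nat.card U := by rw [h1, one_mul]
    exact Nat.eq_of_mul_eq_mul_right hU this
  refine ⟨a, ha, fun x hx => ?_⟩
  have h3 := h2 x hx
  have h4 : ∀ u : U, θ ((u : Γ) * x * (u : Γ)⁻¹) = θ x := fun u =>
    congrFun (hinv u u.2) x
  rw [Finset.sum_congr rfl (fun u _ => h4 u), Finset.sum_const, Finset.card_univ,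
    ← Nat.card_eq_fintype_card, nsmul_eq_mul, ht1, Nat.cast_one, mul_one] at h3
  have hU0 : ((Nat.card U : ℕ) : ℂ) ≠ 0 := by exact_mod_cast hU.ne'
  apply mul_left_cancel₀ hU0
  rw [h3]; ring

/-- the decomposition of the induced character of an invariant character -/
theorem decomp {M U : Subgroup Γ} (hMU : M ≤ U) (hn : ∀ u ∈ U, ∀ g ∈ M, u * g * u⁻¹ ∈ M)
    {θ : Γ → ℂ} (hθ : θ ∈ IrrS M) (hinv : ∀ u ∈ U, cj u θ = θ) :
    ∃ (fs : Finset (Γ → ℂ)) (e : (Γ → ℂ) → ℕ), (∀ χ, χ ∈ fs ↔ χ ∈ Ab U θ) ∧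
      (∀ χ ∈ fs, 0 < e χ ∧ ∀ x ∈ M, χ x = e χ * θ x) ∧
      (∀ g, (M.relIndex U : ℂ) * θ g = ∑ χ ∈ fs, e χ * χ g) ∧
      ∑ χ ∈ fs, e χ * e χ = M.relIndex U := by
  obtain ⟨fs0, hfs0, -⟩ := FI.Lib.lS9 Γ U
  set fs := fs0.filter (fun χ => Over χ θ) with hfs
  have hmem : ∀ χ, χ ∈ fs ↔ χ ∈ Ab U θ := by
    intro χ
    rw [hfs, Finset.mem_filter, hfs0]; rfl
  have hex : ∀ χ, ∃ a : ℕ, χ ∈ fs → (0 < a ∧ ∀ x ∈ M, χ x = a * θ x) := by
    intro χ
    by_cases h : χ ∈ fs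
    · obtain ⟨a, h1, h2⟩ := over_inv hMU hn hθ hinv ((hmem χ).1 h).1 ((hmem χ).1 h).2
      exact ⟨a, fun _ => ⟨h1, h2⟩⟩
    · exact ⟨0, fun h' => absurd h' h⟩
  choose e he using hex
  have hθ0 := (FI.Lib.lS1 Γ M θ hθ).1
  have hcard : (M.relIndex U : ℂ) * Nat.card M = Nat.card U := by
    rw [← Subgroup.card_mul_index (M.subgroupOf U)]
    have h1 : Nat.card (M.subgroupOf U) = Nat.card M :=
      Nat.card_congr (Subgroup.subgroupOfEquivOfLe hMU).toEquiv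
    rw [h1, Subgroup.relIndex]
    push_cast
    ring
  have hM0 : ((Nat.card M : ℕ) : ℂ) ≠ 0 := by exact_mod_cast (Nat.card_pos (α := M)).ne'
  have hU0 : ((Nat.card U : ℕ) : ℂ) ≠ 0 := by exact_mod_cast (Nat.card_pos (α := U)).ne'
  have hθθ : ∑ g, θ g * conj (θ g) = Nat.card M := by
    rw [FI.Lib.lS2 Γ M θ θ hθ hθ, if_pos rfl]
  have hin : ∀ χ ∈ fs, ∑ g, θ g * conj (χ g) = e χ * Nat.card M := by
    intro χ hχ
    rw [sum_sub M _ (fun g hg => by rw [hθ0 g hg, zero_mul])]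
    rw [sum_sub M _ (fun g hg => by rw [hθ0 g hg, zero_mul])] at hθθ
    rw [← hθθ, Finset.mul_sum]
    refine Finset.sum_congr rfl fun x _ => ?_
    rw [(he χ hχ).2 x x.2, map_mul, Complex.conj_natCast]
    ring
  have hdec : (fun g => (M.relIndex U : ℂ) * θ g - ∑ χ ∈ fs, e χ * χ g) = 0 := by
    apply FI.Lib.lS3 Γ U
    · intro g hg
      rw [hθ0 g (fun h => hg (hMU h)), mul_zero, Finset.sum_eq_zero, sub_zero]
      intro χ hχ
      rw [(FI.Lib.lS1 Γ U χ ((hmem χ).1 hχ).1).1 g hg, mul_zero]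
    · intro n hn1 g
      have h1 : θ (n * g * n⁻¹) = θ g := congrFun (hinv n hn1) g
      rw [h1]
      congr 1
      refine Finset.sum_congr rfl fun χ hχ => ?_
      rw [(FI.Lib.lS1 Γ U χ ((hmem χ).1 hχ).1).2.1 n hn1 g]
    · intro η hη
      have h1 : ∑ g, ((M.relIndex U : ℂ) * θ g - ∑ χ ∈ fs, e χ * χ g) * conj (η g) =
          (M.relIndex U : ℂ) * ∑ g, θ g * conj (η g) -
            ∑ χ ∈ fs, e χ * ∑ g, χ g * conj (η g) := by
        rw [Finset.mul_sum]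
        simp_rw [Finset.mul_sum]
        rw [Finset.sum_comm, ← Finset.sum_sub_distrib]
        refine Finset.sum_congr rfl fun g _ => ?_
        rw [sub_mul, Finset.sum_mul]
        congr 1
        · ring
        · refine Finset.sum_congr rfl fun χ _ => ?_
          ring
      rw [h1]
      have h2 : ∑ χ ∈ fs, (e χ : ℂ) * ∑ g, χ g * conj (η g) =
          if η ∈ fs then (e η : ℂ) * Nat.card U else 0 := by
        rw [← Finset.sum_ite_eq' fs η (fun χ => (e χ : ℂ) * Nat.card U)]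
        refine Finset.sum_congr rfl fun χ hχ => ?_
        rw [FI.Lib.lS2 Γ U χ η ((hmem χ).1 hχ).1 hη]
        by_cases h3 : χ = η
        · rw [if_pos h3, if_pos h3]
        · rw [if_neg h3, if_neg h3, mul_zero]
      rw [h2]
      by_cases h3 : η ∈ fs
      · rw [if_pos h3, hin η h3, ← hcard]; ring
      · rw [if_neg h3, conj_sum_comm]
        have h4 : ∑ x, η x * conj (θ x) = 0 := by
          by_contra h5
          exact h3 ((hmem η).2 ⟨hη, h5⟩)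
        rw [h4]; simp
  have hdec2 : ∀ g, (M.relIndex U : ℂ) * θ g = ∑ χ ∈ fs, e χ * χ g := fun g =>
    sub_eq_zero.1 (congrFun hdec g)
  refine ⟨fs, e, hmem, fun χ hχ => he χ hχ, hdec2, ?_⟩
  have h1 : (M.relIndex U : ℂ) * ∑ g, θ g * conj (θ g) =
      ∑ χ ∈ fs, (e χ : ℂ) * (e χ * Nat.card M) := by
    have h2 : ∀ g, (M.relIndex U : ℂ) * (θ g * conj (θ g)) =
        ∑ χ ∈ fs, (e χ : ℂ) * (χ g * conj (θ g)) := by
      intro g
      rw [← mul_assoc, hdec2, Finset.sum_mul]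
      refine Finset.sum_congr rfl fun χ _ => by ring
    rw [Finset.mul_sum, Finset.sum_congr rfl (fun g _ => h2 g), Finset.sum_comm]
    refine Finset.sum_congr rfl fun χ hχ => ?_
    rw [← Finset.mul_sum, conj_sum_comm, hin χ hχ, map_mul, Complex.conj_natCast,
      Complex.conj_natCast]
  rw [hθθ] at h1
  have h3 : (M.relIndex U : ℂ) = ∑ χ ∈ fs, (e χ : ℂ) * e χ := by
    apply mul_right_cancel₀ hM0
    rw [h1, Finset.sum_mul]
    refine Finset.sum_congr rfl fun χ _ => by ring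
  exact_mod_cast h3.symm

end

theorem lin1 (A : (Fin 1 → ℂ) →ₗ[ℂ] (Fin 1 → ℂ)) :
    A = (LinearMap.trace ℂ (Fin 1 → ℂ) A) • LinearMap.id := by
  have h1 : A = (A (fun _ => 1) 0) • LinearMap.id := by
    apply LinearMap.ext
    intro v
    have h2 : v = v 0 • (fun _ => (1 : ℂ)) := by
      funext i
      rw [Subsingleton.elim i 0, Pi.smul_apply, smul_eq_mul, mul_one]
    have h3 : A v = v 0 • A (fun _ => 1) := by
      conv_lhs => rw [h2]
      rw [map_smul]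
    rw [h3]
    funext i
    rw [Subsingleton.elim i 0]
    change v 0 * A (fun _ => 1) 0 = A (fun _ => 1) 0 * v 0
    ring
  have h2 : LinearMap.trace ℂ (Fin 1 → ℂ) A = A (fun _ => 1) 0 := by
    conv_lhs => rw [h1]
    rw [map_smul, LinearMap.trace_id, Module.finrank_fin_fun, smul_eq_mul]
    simp
  rw [h2]; exact h1

theorem lin_abs {Γ : Type} [Group Γ] [Fintype Γ] {M : Subgroup Γ} {ψ : Γ → ℂ}
    (hψ : ψ ∈ IrrS M) (h1 : ψ 1 = 1) : ∀ x ∈ M, ψ x * conj (ψ x) = 1 := by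
  have hS := FI.Lib.lS1 Γ M ψ hψ
  obtain ⟨p, ⟨n, ρ, hρ, hp⟩, hpψ⟩ := hψ
  have hval : ∀ (g : Γ) (hg : g ∈ M), ψ g = ρ.character ⟨g, hg⟩ := by
    intro g hg
    rw [← hpψ, hp, ext0]
    exact dif_pos hg
  have hn : n = 1 := by
    have h2 := hval 1 M.one_mem
    rw [h1] at h2
    have h3 : ρ.character (1 : M) = n := by
      rw [Representation.char_one, Module.finrank_fin_fun]
    have h4 : (⟨1, M.one_mem⟩ : M) = 1 := rfl
    rw [h4, h3] at h2
    exact_mod_cast h2.symm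
  subst hn
  intro x hx
  rw [hS.2.2.2.1 x, hval x hx, hval x⁻¹ (M.inv_mem hx)]
  have h2 : ρ (⟨x, hx⟩ * ⟨x⁻¹, M.inv_mem hx⟩) = ρ ⟨x, hx⟩ * ρ ⟨x⁻¹, M.inv_mem hx⟩ := map_mul _ _ _
  have h3 : (⟨x, hx⟩ * ⟨x⁻¹, M.inv_mem hx⟩ : M) = 1 := Subtype.ext (mul_inv_cancel x)
  rw [h3, map_one] at h2
  have h4 := congrArg (LinearMap.trace ℂ (Fin 1 → ℂ)) h2
  rw [LinearMap.trace_one, Module.finrank_fin_fun] at h4
  have h5 := lin1 (ρ ⟨x, hx⟩)
  rw [h5, smul_mul_assoc, map_smul, smul_eq_mul] at h4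
  have h6 : (LinearMap.id : (Fin 1 → ℂ) →ₗ[ℂ] (Fin 1 → ℂ)) * ρ ⟨x⁻¹, M.inv_mem hx⟩ =
      ρ ⟨x⁻¹, M.inv_mem hx⟩ := rfl
  rw [h6] at h4
  change LinearMap.trace ℂ (Fin 1 → ℂ) (ρ ⟨x, hx⟩) *
    LinearMap.trace ℂ (Fin 1 → ℂ) (ρ ⟨x⁻¹, M.inv_mem hx⟩) = 1
  simpa using h4.symm

theorem pf_GIS : T_GIS := by
  intro Γ _ _ M U hNI ψ hψ hψ1 hψinv τ hτ hτM
  have hMU : M ≤ U := hNI.1
  have hn : ∀ u ∈ U, ∀ g ∈ M, u * g * u⁻¹ ∈ M := hNI.2
  obtain ⟨fs, e, hmem, he, hdec, hsq⟩ := decomp hMU hn hψ hψinv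
  have hψ0 := (FI.Lib.lS1 Γ M ψ hψ).1
  have hM0 : ((Nat.card M : ℕ) : ℂ) ≠ 0 := by exact_mod_cast (Nat.card_pos (α := M)).ne'
  have hU0 : ((Nat.card U : ℕ) : ℂ) ≠ 0 := by exact_mod_cast (Nat.card_pos (α := U)).ne'
  set φ : Γ → ℂ := fun g => ψ g * τ g with hφ
  have hφ0 : ∀ g, g ∉ M → φ g = 0 := fun g hg => by
    change ψ g * τ g = 0
    rw [hψ0 g hg, zero_mul]
  have habs := lin_abs hψ hψ1
  have hτch : IsChar M (fun m => τ m) := FI.Lib.lA4.2.1 M U (Subgroup.inclusion hMU) _ hτ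
  have hψch : IsChar M (fun m => ψ m) := (FI.Lib.lS1 Γ M ψ hψ).2.2.2.2.1
  have hr0 : ∀ g, g ∉ M → rsf M τ g = 0 := fun g hg => if_neg hg
  have hr1 : ∀ x : M, rsf M τ x = τ x := fun x => if_pos x.2
  have hττ : ∑ x : M, τ x * conj (τ x) = Nat.card M := by
    have h1 := FI.Lib.lS2 Γ M _ _ hτM hτM
    rw [if_pos rfl, sum_sub M _ (fun g hg => by rw [hr0 g hg, zero_mul])] at h1
    rw [← h1]
    exact Finset.sum_congr rfl fun x _ => by rw [hr1]
  have hφφ : ∑ g, φ g * conj (φ g) = Nat.card M := by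
    rw [sum_sub M _ (fun g hg => by rw [hφ0 g hg, zero_mul]), ← hττ]
    refine Finset.sum_congr rfl fun x _ => ?_
    change ψ x * τ x * conj (ψ x * τ x) = _
    rw [map_mul]
    calc ψ x * τ x * (conj (ψ x) * conj (τ x)) = (ψ x * conj (ψ x)) * (τ x * conj (τ x)) := by ring
      _ = _ := by rw [habs x x.2, one_mul]
  have hφI : φ ∈ IrrS M := by
    refine FI.Lib.lS10 Γ M φ hφ0 ?_ hφφ
    exact FI.Lib.lA4.1 M _ _ hψch hτch
  have hτcl : ∀ u ∈ U, ∀ g ∈ U, τ (u * g * u⁻¹) = τ g := by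
    intro u hu g hg
    exact ((FI.Lib.lA3 U).2.1 _ hτ).1 ⟨u, hu⟩ ⟨g, hg⟩
  have hφinv : ∀ u ∈ U, cj u φ = φ := by
    intro u hu
    funext g
    have h1 : ψ (u * g * u⁻¹) = ψ g := congrFun (hψinv u hu) g
    change ψ (u * g * u⁻¹) * τ (u * g * u⁻¹) = ψ g * τ g
    by_cases hg : g ∈ M
    · rw [h1, hτcl u hu g (hMU hg)]
    · rw [h1, hψ0 g hg, zero_mul, zero_mul]
  refine ⟨hφI, hφinv, ?_⟩
  obtain ⟨d, hd⟩ := ((FI.Lib.lA3 U).2.1 _ hτ).2.2.2
  have hd' : τ 1 = d := hd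
  have hd0 : τ 1 ≠ 0 := by
    obtain ⟨d', hd1, hd2⟩ := (FI.Lib.lS1 Γ M _ hτM).2.2.1
    have h1 : rsf M τ 1 = τ 1 := if_pos M.one_mem
    rw [← h1, hd2]
    exact_mod_cast hd1.ne'
  set F : (Γ → ℂ) → (Γ → ℂ) := fun χ g => χ g * τ g with hF
  have hχU : ∀ χ ∈ fs, χ ∈ IrrS U := fun χ hχ => ((hmem χ).1 hχ).1
  have hF0 : ∀ χ ∈ fs, ∀ g, g ∉ U → F χ g = 0 := by
    intro χ hχ g hg
    change χ g * τ g = 0
    rw [(FI.Lib.lS1 Γ U χ (hχU χ hχ)).1 g hg, zero_mul]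
  have hFch : ∀ χ ∈ fs, IsChar U (fun u => F χ u) := by
    intro χ hχ
    exact FI.Lib.lA4.1 U _ _ (FI.Lib.lS1 Γ U χ (hχU χ hχ)).2.2.2.2.1 hτ
  have hex : ∀ χ χ', ∃ k : ℕ, χ ∈ fs → χ' ∈ fs →
      ∑ g, F χ g * conj (F χ' g) = k * (Nat.card U : ℂ) := by
    intro χ χ'
    by_cases h : χ ∈ fs
    · by_cases h' : χ' ∈ fs
      · obtain ⟨k, hk⟩ := inner_sub U (F χ) (F χ') (hF0 χ h) (hFch χ h) (hFch χ' h')
        exact ⟨k, fun _ _ => hk⟩
      · exact ⟨0, fun _ h2 => absurd h2 h'⟩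
    · exact ⟨0, fun h2 => absurd h2 h⟩
  choose m hm using hex
  have hmpos : ∀ χ ∈ fs, 0 < m χ χ := by
    intro χ hχ
    rw [Nat.pos_iff_ne_zero]
    intro h0
    have h1 := hm χ χ hχ hχ
    rw [h0, Nat.cast_zero, zero_mul] at h1
    have h2 : ∑ g, F χ g * conj (F χ g) = ((∑ g, Complex.normSq (F χ g) : ℝ) : ℂ) := by
      push_cast
      exact Finset.sum_congr rfl fun g _ => Complex.mul_conj _
    rw [h2] at h1
    have h3 : ∑ g, Complex.normSq (F χ g) = 0 := by exact_mod_cast h1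
    rw [Finset.sum_eq_zero_iff_of_nonneg (fun g _ => Complex.normSq_nonneg _)] at h3
    have h4 : F χ 1 = 0 := Complex.normSq_eq_zero.1 (h3 1 (Finset.mem_univ _))
    obtain ⟨d1, hd1, hd2⟩ := (FI.Lib.lS1 Γ U χ (hχU χ hχ)).2.2.1
    have h5 : χ 1 * τ 1 = 0 := h4
    rw [hd2] at h5
    rcases mul_eq_zero.1 h5 with h6 | h6
    · have : d1 = 0 := by exact_mod_cast h6
      omega
    · exact hd0 h6
  have hcard : (M.relIndex U : ℂ) * Nat.card M = Nat.card U := by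
    rw [← Subgroup.card_mul_index (M.subgroupOf U)]
    have h1 : Nat.card (M.subgroupOf U) = Nat.card M :=
      Nat.card_congr (Subgroup.subgroupOfEquivOfLe hMU).toEquiv
    rw [h1, Subgroup.relIndex]
    push_cast
    ring
  have hdecF : ∀ g, (M.relIndex U : ℂ) * φ g = ∑ χ ∈ fs, (e χ : ℂ) * F χ g := by
    intro g
    change (M.relIndex U : ℂ) * (ψ g * τ g) = ∑ χ ∈ fs, (e χ : ℂ) * (χ g * τ g)
    rw [← mul_assoc, hdec, Finset.sum_mul]
    exact Finset.sum_congr rfl fun χ _ => by ring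
  have hkey : ∑ χ ∈ fs, ∑ χ' ∈ fs, e χ * e χ' * m χ χ' = ∑ χ ∈ fs, e χ * e χ := by
    rw [hsq]
    have h1 : ∑ g, ((M.relIndex U : ℂ) * φ g) * conj ((M.relIndex U : ℂ) * φ g) =
        (M.relIndex U : ℂ) * Nat.card U := by
      rw [← hcard, ← hφφ, Finset.mul_sum, Finset.mul_sum]
      refine Finset.sum_congr rfl fun g _ => ?_
      rw [map_mul, Complex.conj_natCast]; ring
    have h2 : ∑ g, ((M.relIndex U : ℂ) * φ g) * conj ((M.relIndex U : ℂ) * φ g) =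
        ∑ χ ∈ fs, ∑ χ' ∈ fs, (e χ : ℂ) * e χ' * (m χ χ' * Nat.card U) := by
      have h3 : ∀ g, ((M.relIndex U : ℂ) * φ g) * conj ((M.relIndex U : ℂ) * φ g) =
          ∑ χ ∈ fs, ∑ χ' ∈ fs, (e χ : ℂ) * e χ' * (F χ g * conj (F χ' g)) := by
        intro g
        rw [hdecF, map_sum, Finset.sum_mul_sum]
        refine Finset.sum_congr rfl fun χ _ => Finset.sum_congr rfl fun χ' _ => ?_
        rw [map_mul, Complex.conj_natCast]; ring
      rw [Finset.sum_congr rfl (fun g _ => h3 g), Finset.sum_comm]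
      refine Finset.sum_congr rfl fun χ hχ => ?_
      rw [Finset.sum_comm]
      refine Finset.sum_congr rfl fun χ' hχ' => ?_
      rw [← Finset.mul_sum, hm χ χ' hχ hχ']
    rw [h1] at h2
    have h4 : ((∑ χ ∈ fs, ∑ χ' ∈ fs, e χ * e χ' * m χ χ' : ℕ) : ℂ) * Nat.card U =
        (M.relIndex U : ℂ) * Nat.card U := by
      rw [h2]
      push_cast
      rw [Finset.sum_mul]
      refine Finset.sum_congr rfl fun χ _ => ?_
      rw [Finset.sum_mul]
      exact Finset.sum_congr rfl fun χ' _ => by ring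
    exact_mod_cast mul_right_cancel₀ hU0 h4
  have hge : ∀ χ ∈ fs, e χ * e χ ≤ ∑ χ' ∈ fs, e χ * e χ' * m χ χ' := by
    intro χ hχ
    refine le_trans ?_ (Finset.single_le_sum (f := fun χ' => e χ * e χ' * m χ χ')
      (fun _ _ => Nat.zero_le _) hχ)
    exact Nat.le_mul_of_pos_right _ (hmpos χ hχ)
  have heq : ∀ χ ∈ fs, e χ * e χ = ∑ χ' ∈ fs, e χ * e χ' * m χ χ' :=
    (Finset.sum_eq_sum_iff_of_le hge).1 hkey.symm
  have hm1 : ∀ χ ∈ fs, m χ χ = 1 := by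
    intro χ hχ
    have h1 := Finset.single_le_sum (f := fun χ' => e χ * e χ' * m χ χ')
      (fun _ _ => Nat.zero_le _) hχ
    rw [← heq χ hχ] at h1
    have h2 : 0 < e χ * e χ := Nat.mul_pos (he χ hχ).1 (he χ hχ).1
    have h3 : e χ * e χ * m χ χ ≤ e χ * e χ * 1 := by rw [mul_one]; exact h1
    have h4 := Nat.le_of_mul_le_mul_left h3 h2
    have h5 := hmpos χ hχ
    omega
  have hm0 : ∀ χ ∈ fs, ∀ χ' ∈ fs, χ ≠ χ' → m χ χ' = 0 := by
    intro χ hχ χ' hχ' hne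
    have h1 : ∑ y ∈ ({χ, χ'} : Finset (Γ → ℂ)), e χ * e y * m χ y ≤
        ∑ y ∈ fs, e χ * e y * m χ y := by
      refine Finset.sum_le_sum_of_subset ?_
      intro y hy
      rcases Finset.mem_insert.1 hy with rfl | hy
      · exact hχ
      · rw [Finset.mem_singleton.1 hy]; exact hχ'
    rw [Finset.sum_pair hne, ← heq χ hχ, hm1 χ hχ, mul_one] at h1
    have h2 : e χ * e χ' * m χ χ' = 0 := by omega
    have h3 : 0 < e χ * e χ' := Nat.mul_pos (he χ hχ).1 (he χ' hχ').1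
    rcases mul_eq_zero.1 h2 with h4 | h4
    · omega
    · exact h4
  have hFI : ∀ χ ∈ fs, F χ ∈ IrrS U := by
    intro χ hχ
    refine FI.Lib.lS10 Γ U (F χ) (hF0 χ hχ) (hFch χ hχ) ?_
    rw [hm χ χ hχ hχ, hm1 χ hχ, Nat.cast_one, one_mul]
  have hFinj : ∀ χ ∈ fs, ∀ χ' ∈ fs, F χ = F χ' → χ = χ' := by
    intro χ hχ χ' hχ' h
    by_contra hne
    have h1 := hm χ χ' hχ hχ'
    rw [hm0 χ hχ χ' hχ' hne, ← h, hm χ χ hχ hχ, hm1 χ hχ] at h1
    simp at h1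
  have hFov : ∀ χ ∈ fs, Over (F χ) φ := by
    intro χ hχ
    have h1 : ∑ g, F χ g * conj (φ g) = e χ * (Nat.card M : ℂ) := by
      rw [← hφφ, Finset.mul_sum]
      refine Finset.sum_congr rfl fun g _ => ?_
      by_cases hg : g ∈ M
      · change χ g * τ g * conj (φ g) = e χ * (ψ g * τ g * conj (φ g))
        rw [(he χ hχ).2 g hg]; ring
      · rw [hφ0 g hg, map_zero, mul_zero, mul_zero, mul_zero]
    intro h2
    rw [h2] at h1
    have h3 : (e χ : ℂ) ≠ 0 := by exact_mod_cast (he χ hχ).1.ne'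
    exact (mul_ne_zero h3 hM0) h1.symm
  have hset : Ab U φ = ((fs.image F : Finset (Γ → ℂ)) : Set (Γ → ℂ)) := by
    ext η
    rw [Finset.mem_coe, Finset.mem_image]
    constructor
    · rintro ⟨hη, hov⟩
      by_contra hno
      push Not at hno
      have h1 : (M.relIndex U : ℂ) * ∑ g, φ g * conj (η g) = 0 := by
        have h2 : ∀ g, (M.relIndex U : ℂ) * (φ g * conj (η g)) =
            ∑ χ ∈ fs, (e χ : ℂ) * (F χ g * conj (η g)) := by
          intro g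
          rw [← mul_assoc, hdecF, Finset.sum_mul]
          exact Finset.sum_congr rfl fun χ _ => by ring
        rw [Finset.mul_sum, Finset.sum_congr rfl (fun g _ => h2 g), Finset.sum_comm]
        refine Finset.sum_eq_zero fun χ hχ => ?_
        rw [← Finset.mul_sum, FI.Lib.lS2 Γ U (F χ) η (hFI χ hχ) hη, if_neg (hno χ hχ), mul_zero]
      have h3 : (M.relIndex U : ℂ) ≠ 0 := by
        intro h4
        rw [h4, zero_mul] at hcard
        exact hU0 hcard.symm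
      have h4 := (mul_eq_zero.1 h1).resolve_left h3
      apply hov
      have h5 := conj_sum_comm η φ
      rw [h4, map_zero] at h5
      exact h5
    · rintro ⟨χ, hχ, rfl⟩
      exact ⟨hFI χ hχ, hFov χ hχ⟩
  have hset2 : Ab U ψ = (fs : Set (Γ → ℂ)) := by
    ext χ
    rw [Finset.mem_coe, hmem]
  constructor
  · rw [kk, kk, hset, hset2, Set.ncard_coe_finset, Set.ncard_coe_finset,
      Finset.card_image_of_injOn (fun χ hχ χ' hχ' h => hFinj χ hχ χ' hχ' h)]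
  · rw [dd, dd, hset, hset2, finsum_mem_coe_finset, finsum_mem_coe_finset,
      Finset.sum_image (fun χ hχ χ' hχ' h => hFinj χ hχ χ' hχ' h), Finset.mul_sum]
    refine Finset.sum_congr rfl fun χ _ => ?_
    change (χ 1 * τ 1).re = _
    rw [hd']
    simp [mul_comm]

end Pool.Agent.H63.FI
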