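import Pool.Agent.H6.FI.TargetsC
import Pool.Agent.H6.FI.Lib

/-!
# MP_7500ea_al, board fi_modules: row BRG (types and the ambient group)
-/

open scoped Classical ComplexConjugate
open FI AMc AMt

namespace Pool.Agent.H63.FI

theorem ext_id {Γ : Type} [Group Γ] [Fintype Γ] (ψ : Γ → ℂ) :
    extj (MonoidHom.id Γ) ψ = ψ := by
  funext g
  exact (FI.Lib.lK1 Γ Γ (MonoidHom.id Γ) Function.injective_id).1 ψ g

theorem irr_top {Γ : Type} [Group Γ] [Fintype Γ] (χ : Γ → ℂ) :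
    χ ∈ IrrS (⊤ : Subgroup Γ) ↔ χ ∈ Irr Γ := by
  have h1 := (FI.Lib.lK1 Γ Γ (MonoidHom.id Γ) Function.injective_id).2.1 χ
  rw [ext_id, MonoidHom.range_eq_top.2 (fun x => ⟨x, rfl⟩)] at h1
  exact h1.symm

theorem pf_BRG : T_BRG := by
  intro Γ _ _ N θ hθ
  refine ⟨⟨θ, hθ, rfl⟩, ?_⟩
  have hsum : ∀ χ : Γ → ℂ, ∑ᶠ n : N, χ n * conj (θ n) = ∑ g : Γ, χ g * conj (ext0 N θ g) := by
    intro χ
    have h1 : ∀ n : N, χ n * conj (θ n) = (fun g => χ g * conj (ext0 N θ g)) (n : Γ) := by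
      intro n
      have h2 : ext0 N θ (n : Γ) = θ n := by
        rw [ext0, dif_pos n.2]
      change _ = χ n * conj (ext0 N θ n)
      rw [h2]
    rw [finsum_congr h1]
    have h3 := finsum_set_coe_eq_finsum_mem (N : Set Γ)
      (f := fun g => χ g * conj (ext0 N θ g))
    refine h3.trans ?_
    rw [← finsum_eq_sum_of_fintype]
    refine finsum_congr fun g => ?_
    by_cases hg : g ∈ (N : Set Γ)
    · exact finsum_eq_if.trans (if_pos hg)
    · have h4 : ext0 N θ g = 0 := by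
        rw [ext0]; exact dif_neg hg
      rw [finsum_eq_if, if_neg hg, h4, map_zero, mul_zero]
  have hset : IrrO N θ = Ab ⊤ (ext0 N θ) := by
    ext χ
    change (χ ∈ Irr Γ ∧ _) ↔ (χ ∈ IrrS ⊤ ∧ Over χ (ext0 N θ))
    rw [irr_top, hsum]
    rfl
  obtain ⟨fs, hfs, -⟩ := FI.Lib.lS9 Γ ⊤
  have hfin : (Ab ⊤ (ext0 N θ)).Finite := by
    refine fs.finite_toSet.subset ?_
    intro χ hχ
    exact Finset.mem_coe.2 ((hfs χ).2 hχ.1)
  rw [acd, hset, kk, dd]
  by_cases h0 : (Ab ⊤ (ext0 N θ)).ncard = 0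
  · rw [Set.ncard_eq_zero hfin] at h0
    rw [h0, Set.ncard_empty, finsum_mem_empty]
    simp
  · rw [div_mul_cancel₀]
    exact_mod_cast h0

end Pool.Agent.H63.FI
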