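import Pool.Agent.H6.FI.TargetsB
import Pool.Agent.H6.FI.Lib
import Pool.Agent.H31.EA.XS

/-!
# MP_7500ea_al, board fi_modules: row DET (determinants)
-/

open scoped Classical ComplexConjugate
open FI AMc AMt

namespace Pool.Agent.H63.FI

theorem pf_DET : T_DET := by
  intro Γ _ _ Z M hZM hc ν hν φ hφ hov n hn z hz
  obtain ⟨hz1, hz2⟩ := Subgroup.mem_inf.1 hz
  obtain ⟨ψ, ⟨n', ρ, hρ, hψ⟩, hφψ⟩ := hφ
  have hval : ∀ (g : Γ) (hg : g ∈ M), φ g = ρ.character ⟨g, hg⟩ := by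
    intro g hg
    rw [← hφψ, hψ, ext0]
    exact dif_pos hg
  have hn' : n' = n := by
    have h1 := hval 1 M.one_mem
    rw [hn] at h1
    have h2 : ρ.character (1 : M) = n' := by
      rw [Representation.char_one, Module.finrank_fin_fun]
    have h3 : (⟨1, M.one_mem⟩ : M) = 1 := rfl
    rw [h3, h2] at h1
    exact_mod_cast h1.symm
  subst hn'
  have hφ' : φ ∈ IrrS M := ⟨ψ, ⟨n', ρ, hρ, hψ⟩, hφψ⟩
  have hpos : 0 < n' := by
    obtain ⟨d, hd, hd1⟩ := (FI.Lib.lS1 Γ M φ hφ').2.2.1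
    rw [hn] at hd1
    have : n' = d := by exact_mod_cast hd1
    omega
  have hn0 : (n' : ℂ) ≠ 0 := by exact_mod_cast hpos.ne'
  -- Schur
  have hS : ∀ x : Z, ∃ c : ℂ, ρ ⟨x, hZM x.2⟩ = c • LinearMap.id := by
    intro x
    obtain ⟨c, hc1⟩ := Pool.Agent.H31.EA.XS.schur ρ hρ (ρ ⟨x, hZM x.2⟩) (by
      intro g v
      have h1 : (⟨x, hZM x.2⟩ : M) * g = g * ⟨x, hZM x.2⟩ := Subtype.ext (hc x x.2 g g.2)
      have h2 := congrArg ρ h1
      rw [map_mul, map_mul] at h2
      exact LinearMap.congr_fun h2 v)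
    exact ⟨c, LinearMap.ext fun v => hc1 v⟩
  choose s hs using hS
  have hφs : ∀ x : Z, φ x = n' * s x := by
    intro x
    rw [hval x (hZM x.2), Representation.character, hs x, map_smul, LinearMap.trace_id,
      Module.finrank_fin_fun, smul_eq_mul, mul_comm]
  have hs1 : s 1 = 1 := by
    have h1 := hφs 1
    have h2 : φ ((1 : Z) : Γ) = n' := hn
    rw [h2] at h1
    exact (mul_left_cancel₀ hn0 (h1.symm.trans (mul_one _).symm))
  have hsm : ∀ x y : Z, s (x * y) = s x * s y := by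
    intro x y
    have h1 : ρ ⟨((x * y : Z) : Γ), hZM (x * y).2⟩ =
        ρ ⟨x, hZM x.2⟩ * ρ ⟨y, hZM y.2⟩ := by
      rw [← map_mul]; rfl
    have h2 := congrArg (LinearMap.trace ℂ (Fin n' → ℂ)) h1
    rw [hs, hs, hs, map_smul, LinearMap.trace_id, Module.finrank_fin_fun] at h2
    have h3 : (s x • (LinearMap.id : (Fin n' → ℂ) →ₗ[ℂ] (Fin n' → ℂ))) *
        (s y • LinearMap.id) = (s x * s y) • LinearMap.id := by
      apply LinearMap.ext
      intro v
      change s x • (s y • v) = (s x * s y) • v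
      rw [mul_smul]
    rw [h3, map_smul, LinearMap.trace_id, Module.finrank_fin_fun, smul_eq_mul,
      smul_eq_mul] at h2
    exact mul_right_cancel₀ hn0 h2
  -- the linear character
  set l : Z →* ℂˣ := MonoidHom.toHomUnits
    { toFun := s, map_one' := hs1, map_mul' := hsm } with hl
  have hls : ∀ x : Z, ((l x : ℂˣ) : ℂ) = s x := fun x => rfl
  have hchar : IsChar Z (fun x => ((l x : ℂˣ) : ℂ)) := FI.Lib.lA4.2.2 Z l
  set lam : Γ → ℂ := fun g => if h : g ∈ Z then s ⟨g, h⟩ else 0 with hlam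
  have hlam1 : ∀ x : Z, lam x = s x := fun x => dif_pos x.2
  have hlam0 : ∀ g, g ∉ Z → lam g = 0 := fun g hg => dif_neg hg
  have hconj : ∀ x : Z, s x * conj (s x) = 1 := by
    intro x
    have h1 : conj (s x) = s x⁻¹ := (FI.Lib.lA3 Z).2.1 _ hchar |>.2.1 x
    rw [h1, ← hsm, mul_inv_cancel, hs1]
  have hsumZ : ∀ f : Γ → ℂ, (∀ g, g ∉ Z → f g = 0) → ∑ g, f g = ∑ x : Z, f x := by
    intro f hf
    have h1 : ∑ x : Z, f x = ∑ g ∈ Finset.univ.filter (fun g => g ∈ Z), f g := by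
      refine (Finset.sum_subtype _ (fun g => ?_) f).symm
      simp
    rw [h1, Finset.sum_filter]
    refine Finset.sum_congr rfl fun g _ => ?_
    by_cases hg : g ∈ Z
    · rw [if_pos hg]
    · rw [if_neg hg, hf g hg]
  have hlamI : lam ∈ IrrS Z := by
    refine FI.Lib.lS10 Γ Z lam hlam0 ?_ ?_
    · have h1 : (fun x : Z => lam x) = fun x => ((l x : ℂˣ) : ℂ) := by
        funext x; exact hlam1 x
      rw [h1]; exact hchar
    · rw [hsumZ _ (fun g hg => by rw [hlam0 g hg, zero_mul])]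
      have h1 : ∀ x : Z, lam x * conj (lam x) = 1 := by
        intro x; rw [hlam1, hconj]
      rw [Finset.sum_congr rfl (fun x _ => h1 x)]
      simp
  have heq : lam = ν := by
    by_contra hne
    have h1 := FI.Lib.lS2 Γ Z lam ν hlamI hν
    rw [if_neg hne] at h1
    apply hov
    have hν0 := (FI.Lib.lS1 Γ Z ν hν).1
    rw [hsumZ _ (fun g hg => by rw [hν0 g hg, map_zero, mul_zero])]
    rw [hsumZ _ (fun g hg => by rw [hν0 g hg, map_zero, mul_zero])] at h1
    have h2 : ∀ x : Z, φ x * conj (ν x) = n' * (lam x * conj (ν x)) := by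
      intro x; rw [hφs, hlam1, mul_assoc]
    rw [Finset.sum_congr rfl (fun x _ => h2 x), ← Finset.mul_sum, h1, mul_zero]
  -- determinants
  set D : M →* ℂˣ := MonoidHom.toHomUnits ((LinearMap.det).comp ρ) with hD
  have hDz : ((D ⟨z, hZM hz1⟩ : ℂˣ) : ℂ) = ν z ^ n' := by
    change LinearMap.det (ρ ⟨z, hZM hz1⟩) = ν z ^ n'
    have h1 := hs ⟨z, hz1⟩
    have h2 : ν z = s ⟨z, hz1⟩ := by
      rw [← heq]; exact hlam1 ⟨z, hz1⟩
    rw [h1, LinearMap.det_smul, LinearMap.det_id, mul_one, Module.finrank_fin_fun, h2]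
  have hker : (⟨z, hZM hz1⟩ : M) ∈ D.ker := by
    have h4 : (commutator M).map M.subtype = ⁅M, M⁆ := by
      rw [commutator_def, Subgroup.map_commutator, ← MonoidHom.range_eq_map, Subgroup.range_subtype]
    rw [← h4] at hz2
    obtain ⟨y, hy, hyz⟩ := hz2
    have h5 : y = ⟨z, hZM hz1⟩ := Subtype.ext hyz
    rw [← h5]
    exact Abelianization.commutator_subset_ker D hy
  rw [← hDz, MonoidHom.mem_ker.1 hker, Units.val_one]

end Pool.Agent.H63.FI
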