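import Pool.Agent.H6.FI.TargetsA

/-!
# MP_7500ea_al, board fi_modules: row LIN (linear independence)
-/

open scoped Classical
open FI

namespace Pool.Agent.H63.FI

section

variable {R V K : Type} [Group R] [AddCommGroup V] {ρ : R →* AddMonoid.End V} {U : Subgroup R}
  [Field K] [Module K V] {j : U →* Kˣ}

theorem rho_mul (ρ : R →* AddMonoid.End V) (a b : R) (v : V) : ρ (a * b) v = ρ a (ρ b v) := by
  rw [map_mul, AddMonoid.End.coe_mul, Function.comp_apply]

theorem rho_one (ρ : R →* AddMonoid.End V) (v : V) : ρ 1 v = v := by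
  rw [map_one]; rfl

/-- the elements of the centraliser act linearly -/
theorem lin_smul (hk : KSt ρ U j) {c : R} (hc : c ∈ Subgroup.centralizer (U : Set R)) (k : K)
    (v : V) : ρ c (k • v) = k • ρ c v := by
  have hk1 : k ∈ Subring.closure (Set.range fun z : U => ((j z : Kˣ) : K)) := by
    rw [hk.gen]; exact Subring.mem_top k
  revert v
  induction hk1 using Subring.closure_induction with
  | mem x hx =>
    obtain ⟨z, rfl⟩ := hx
    intro v
    have h1 : (z : R) * c = c * z := Subgroup.mem_centralizer_iff.1 hc z z.2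
    change ρ c (((j z : Kˣ) : K) • v) = ((j z : Kˣ) : K) • ρ c v
    rw [← hk.act, ← hk.act, ← rho_mul, ← rho_mul, h1]
  | zero => intro v; rw [zero_smul, zero_smul, map_zero]
  | one => intro v; rw [one_smul, one_smul]
  | add x y _ _ hx hy => intro v; rw [add_smul, add_smul, map_add, hx, hy]
  | neg x _ hx => intro v; rw [neg_smul, neg_smul, map_neg, hx]
  | mul x y _ _ hx hy => intro v; rw [mul_smul, mul_smul, hx, hy]

/-- the linear map of an element of the centraliser -/
def Lm (hk : KSt ρ U j) (c : R) (hc : c ∈ Subgroup.centralizer (U : Set R)) : V →ₗ[K] V where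
  toFun v := ρ c v
  map_add' _ _ := map_add _ _ _
  map_smul' k v := lin_smul hk hc k v

theorem j_inj (hi : Function.Injective ρ) (hk : KSt ρ U j) {z : U}
    (h : ((j z : Kˣ) : K) = 1) : z = 1 := by
  have h1 : ρ z = ρ 1 := by
    refine DFunLike.ext _ _ fun v => ?_
    rw [hk.act, h, one_smul]
    exact (rho_one ρ v).symm
  exact Subtype.ext (hi h1)

end

theorem pf_LIN : T_LIN := by
  intro R V K _ _ _ _ _ ρ U D _ _ _ j hi hk hQ
  have hDC := hQ.DC
  -- commutators
  have hcom : ∀ d t : D, (d : R) * t * (d : R)⁻¹ * (t : R)⁻¹ ∈ U := fun d t =>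
    hQ.com d d.2 t t.2
  set χ : D → D → K := fun d t => ((j ⟨_, hcom d t⟩ : Kˣ) : K) with hχ
  have key : ∀ (d t : D) (v : V), ρ d (ρ t (ρ (d : R)⁻¹ v)) = χ d t • ρ t v := by
    intro d t v
    rw [hχ]
    change _ = ((j ⟨_, hcom d t⟩ : Kˣ) : K) • ρ t v
    rw [← hk.act, ← rho_mul, ← rho_mul, ← rho_mul]
    congr 2
    group
  -- distinct cosets have distinct characters
  have hdist : ∀ t s : D, (∀ d : D, χ d t = χ d s) → (t : R) * (s : R)⁻¹ ∈ U := by
    intro t s h
    refine hQ.cen _ (D.mul_mem t.2 (D.inv_mem s.2)) ?_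
    intro b hb
    have h1 := h ⟨b, hb⟩
    have h2 : (j (⟨_, hcom ⟨b, hb⟩ t⟩ * (⟨_, hcom ⟨b, hb⟩ s⟩ : U)⁻¹) : Kˣ) = (1 : Kˣ) := by
      rw [map_mul, map_inv, Units.ext h1, mul_inv_cancel]
    have h3 := j_inj hi hk (congrArg (fun x : Kˣ => (x : K)) h2)
    have h4 : b * t * b⁻¹ * (t : R)⁻¹ = b * s * b⁻¹ * (s : R)⁻¹ := by
      have h5 := mul_inv_eq_one.1 h3
      exact congrArg Subtype.val h5
    set u : R := b * t * b⁻¹ * (t : R)⁻¹ with hu
    have hu1 : u ∈ U := hcom ⟨b, hb⟩ t
    have h6 : b * t = u * t * b := by rw [hu]; group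
    have h7 : b * s = u * s * b := by rw [h4]; group
    have h8 : ∀ x ∈ D, u * x = x * u := fun x hx =>
      Subgroup.mem_centralizer_iff.1 (hDC hx) u hu1
    -- `t s⁻¹ b = b t s⁻¹`
    have h9 : b * (s : R)⁻¹ = (s : R)⁻¹ * u⁻¹ * b := by
      have h10 : (s : R) * (b * (s : R)⁻¹) = u⁻¹ * b := by
        have h11 : u * (s : R) * b = b * s := h7.symm
        calc (s : R) * (b * (s : R)⁻¹) = u⁻¹ * (u * s * b) * (s : R)⁻¹ := by group
          _ = u⁻¹ * b := by rw [h11]; group
      calc b * (s : R)⁻¹ = (s : R)⁻¹ * ((s : R) * (b * (s : R)⁻¹)) := by group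
        _ = (s : R)⁻¹ * u⁻¹ * b := by rw [h10]; group
    have h12 : (s : R)⁻¹ * u⁻¹ = u⁻¹ * (s : R)⁻¹ := by
      have := h8 (s : R) s.2
      have h13 := congrArg (fun x => x⁻¹) this
      simpa [mul_inv_rev] using h13
    calc (t : R) * (s : R)⁻¹ * b = t * (s : R)⁻¹ * b := rfl
      _ = u⁻¹ * (u * t * b) * (b⁻¹ * (s : R)⁻¹ * b) := by group
      _ = u⁻¹ * (b * t) * (b⁻¹ * (s : R)⁻¹ * b) := by rw [h6]
      _ = u⁻¹ * (b * (t : R)) * b⁻¹ * ((s : R)⁻¹ * b) := by group
      _ = b * ((t : R) * (s : R)⁻¹) := by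
        have h14 : u⁻¹ * (b * (t : R)) * b⁻¹ = t := by rw [h6]; group
        rw [h14]
        have h15 : (s : R)⁻¹ * b = u * (b * (s : R)⁻¹) := by
          rw [h9, h12]; group
        rw [h15, ← mul_assoc, ← h8 t t.2, ← mul_assoc, ← h6, mul_assoc]
  set Q := D ⧸ U.subgroupOf D with hQdef
  set L : Q → (V →ₗ[K] V) := fun q => Lm hk ((Quotient.out q : D) : R)
    (hDC (Quotient.out q : D).2) with hL
  have hLv : ∀ q v, L q v = ρ ((Quotient.out q : D) : R) v := fun q v => rfl
  have hout : ∀ q a : Q, (∀ d : D, χ d (Quotient.out q) = χ d (Quotient.out a)) → q = a := by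
    intro q a h
    have h1 := hdist _ _ (fun d => (h d).symm)
    rw [← Quotient.out_eq' q, ← Quotient.out_eq' a]
    refine QuotientGroup.eq.2 ?_
    rw [Subgroup.mem_subgroupOf]
    have h2 := hQ.nU.conj_mem _ h1 ((Quotient.out q : D) : R)⁻¹
    have h3 : ((Quotient.out q : D) : R)⁻¹ * ((Quotient.out a : D) * ((Quotient.out q : D) : R)⁻¹)
        * (((Quotient.out q : D) : R)⁻¹)⁻¹ = ((Quotient.out q : D) : R)⁻¹ * (Quotient.out a : D) := by
      group
    rw [h3] at h2
    exact h2
  have hind : ∀ s : Finset Q, ∀ k : Q → K, (∑ q ∈ s, k q • L q) = 0 → ∀ q ∈ s, k q = 0 := by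
    intro s
    induction s using Finset.induction with
    | empty => intro k _ q hq; exact absurd hq (Finset.notMem_empty q)
    | insert a s ha ih =>
      intro k hk0
      rw [Finset.sum_insert ha] at hk0
      have hall : ∀ v, k a • L a v + ∑ q ∈ s, k q • L q v = 0 := by
        intro v
        have h1 := LinearMap.congr_fun hk0 v
        simpa [LinearMap.add_apply, LinearMap.sum_apply, LinearMap.smul_apply] using h1
      have hs : ∀ q ∈ s, k q = 0 := by
        intro q hq
        have hne : ¬ ∀ d : D, χ d (Quotient.out q) = χ d (Quotient.out a) := fun h =>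
          ha (hout q a h ▸ hq)
        push Not at hne
        obtain ⟨d, hd⟩ := hne
        have h1 := ih (fun p => k p * (χ d (Quotient.out p) - χ d (Quotient.out a))) (by
          apply LinearMap.ext
          intro v
          have h2 := congrArg (ρ (d : R)) (hall (ρ (d : R)⁻¹ v))
          rw [map_zero, map_add, map_sum, lin_smul hk (hDC d.2), hLv, key] at h2
          have h3 : ∀ p ∈ s, ρ (d : R) (k p • L p (ρ (d : R)⁻¹ v)) =
              k p • χ d (Quotient.out p) • L p v := by
            intro p _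
            rw [lin_smul hk (hDC d.2), hLv, key]; rfl
          rw [Finset.sum_congr rfl h3] at h2
          have h4 := congrArg (fun w => χ d (Quotient.out a) • w) (hall v)
          simp only [smul_zero, smul_add, Finset.smul_sum] at h4
          rw [LinearMap.sum_apply, LinearMap.zero_apply]
          have h5 : ∀ p ∈ s, ((k p * (χ d (Quotient.out p) - χ d (Quotient.out a))) • L p) v =
              k p • χ d (Quotient.out p) • L p v - χ d (Quotient.out a) • k p • L p v := by
            intro p _
            rw [LinearMap.smul_apply, mul_sub, sub_smul, mul_smul, mul_comm (k p), mul_smul]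
          rw [Finset.sum_congr rfl h5, Finset.sum_sub_distrib]
          have h6 : k a • χ d (Quotient.out a) • ρ ((Quotient.out a : D) : R) v =
              χ d (Quotient.out a) • k a • L a v := by
            rw [smul_comm]; rfl
          rw [h6] at h2
          have h7 := h2.trans h4.symm
          have h8 := add_left_cancel h7
          rw [h8, sub_self])
        exact (mul_eq_zero.1 (h1 q hq)).resolve_right (sub_ne_zero.2 hd)
      intro q hq
      rcases Finset.mem_insert.1 hq with rfl | hq
      · obtain ⟨v, hv⟩ := exists_ne (0 : V)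
        have h1 := hall v
        rw [Finset.sum_eq_zero (fun p hp => by rw [hs p hp, zero_smul]), add_zero] at h1
        refine (smul_eq_zero.1 h1).resolve_right ?_
        rw [hLv]
        intro h2
        apply hv
        have h3 := congrArg (ρ ((Quotient.out q : D) : R)⁻¹) h2
        rwa [← rho_mul, inv_mul_cancel, rho_one, map_zero] at h3
      · exact hs q hq
  have hli : LinearIndependent K L := by
    rw [linearIndependent_iff']
    exact hind
  have : Fintype Q := Fintype.ofFinite Q
  have hfin : Module.Finite K V := Module.Finite.of_finite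
  have h1 := hli.fintype_card_le_finrank
  rw [Module.finrank_linearMap] at h1
  have h2 : U.relIndex D = Fintype.card Q := by
    rw [Subgroup.relIndex, Subgroup.index, Nat.card_eq_fintype_card]
  rw [h2]
  exact h1

end Pool.Agent.H63.FI
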