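import Pool.Agent.H6.FI.TargetsA

/-!
# MP_7500ea_al, board fi_modules: row PW2 (the bound for `C / D` if `|D / U| = 4`)
-/

open scoped Classical
open FI

namespace Pool.Agent.H63.FI

theorem card_ne_zero_sub (W : Type) [AddCommGroup W] [Finite W] (h : Nat.card W = 4) :
    Nat.card {w : W // w ≠ 0} = 3 := by
  have := Fintype.ofFinite W
  rw [Nat.card_eq_fintype_card] at h ⊢
  have h1 := Fintype.card_subtype_compl (fun w : W => w = 0)
  rw [h, Fintype.card_subtype_eq] at h1
  simpa using h1

/-- the permutation of the non-zero elements -/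
noncomputable def per {R W : Type} [Group R] [AddCommGroup W] (κ : R →* AddMonoid.End W) :
    R →* Equiv.Perm {w : W // w ≠ 0} where
  toFun r :=
    { toFun := fun w => ⟨κ r w.1, fun h => w.2 (by
        have h1 : κ (r⁻¹ * r) w.1 = w.1 := by
          rw [inv_mul_cancel, map_one]; rfl
        rw [map_mul, AddMonoid.End.coe_mul, Function.comp_apply, h, map_zero] at h1
        exact h1.symm)⟩
      invFun := fun w => ⟨κ r⁻¹ w.1, fun h => w.2 (by
        have h1 : κ (r * r⁻¹) w.1 = w.1 := by
          rw [mul_inv_cancel, map_one]; rfl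
        rw [map_mul, AddMonoid.End.coe_mul, Function.comp_apply, h, map_zero] at h1
        exact h1.symm)⟩
      left_inv := fun w => by
        apply Subtype.ext
        change κ r⁻¹ (κ r w.1) = w.1
        have h1 : κ (r⁻¹ * r) w.1 = w.1 := by
          rw [inv_mul_cancel, map_one]; rfl
        rwa [map_mul, AddMonoid.End.coe_mul, Function.comp_apply] at h1
      right_inv := fun w => by
        apply Subtype.ext
        change κ r (κ r⁻¹ w.1) = w.1
        have h1 : κ (r * r⁻¹) w.1 = w.1 := by
          rw [mul_inv_cancel, map_one]; rfl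
        rwa [map_mul, AddMonoid.End.coe_mul, Function.comp_apply] at h1 }
  map_one' := by
    ext w
    change κ 1 w.1 = w.1
    rw [map_one]; rfl
  map_mul' a b := by
    ext w
    change κ (a * b) w.1 = κ a (κ b w.1)
    rw [map_mul, AddMonoid.End.coe_mul, Function.comp_apply]

theorem pf_PW2 (h1 : T_SEC) : T_PW2 := by
  intro R _ _ U D hQ h4
  obtain ⟨W, _, _, f, κ, hf, hU, hcard, hk⟩ := h1 R U D hQ.nU hQ.nD hQ.UD hQ.com
  rw [h4] at hcard
  set C : Subgroup R := Subgroup.centralizer (U : Set R) with hC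
  set ψ : C →* Equiv.Perm {w : W // w ≠ 0} := (per κ).comp C.subtype with hψ
  have hker : ψ.ker ≤ D.subgroupOf C := by
    intro c hc
    rw [Subgroup.mem_subgroupOf]
    refine hQ.cDU c.1 c.2 ?_
    intro d hd
    have hd' : c.1 * d * c.1⁻¹ ∈ D := hQ.nD.conj_mem d hd c.1
    have e := hk c.1 ⟨d, hd⟩ ⟨_, hd'⟩ rfl
    have hid : ∀ w : W, κ c.1 w = w := by
      intro w
      by_cases hw : w = 0
      · rw [hw, map_zero]
      · have h2 : ψ c = 1 := hc
        have h3 := congrArg (fun p : Equiv.Perm {w : W // w ≠ 0} => (p ⟨w, hw⟩).1) h2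
        exact h3
    rw [hid] at e
    have e2 : f ⟨d, hd⟩ = f ⟨_, hd'⟩ := Multiplicative.toAdd.injective e
    have e3 : f (⟨_, hd'⟩ * ⟨d, hd⟩⁻¹) = 1 := by
      rw [map_mul, map_inv, ← e2, mul_inv_cancel]
    exact (hU _).1 e3
  have h5 : D.relIndex C ≤ ψ.ker.index := by
    refine Nat.le_of_dvd ?_ (Subgroup.index_dvd_of_le hker)
    exact Nat.pos_of_ne_zero Subgroup.index_ne_zero_of_finite
  refine h5.trans ?_
  rw [Subgroup.index_ker]
  refine (Nat.card_le_card_of_injective (fun x : ψ.range => x.1)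
    Subtype.val_injective).trans ?_
  rw [Nat.card_perm, card_ne_zero_sub W hcard]
  decide

end Pool.Agent.H63.FI
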