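import Pool.Agent.H6.FI.TargetsC

/-!
# MP_7500ea_al, board fi_modules: row SOL (the solvable radical)
-/

open scoped Classical
open FI

namespace Pool.Agent.H63.FI

/-- extensions: `T` is solvable if `S ≤ T` is solvable, normal, and the image of `T` is -/
theorem solv_ext {G : Type} [Group G] (S T : Subgroup G) [S.Normal]
    (hS : Group.IsSolvable S) (hT : Group.IsSolvable (T.map (QuotientGroup.mk' S))) :
    Group.IsSolvable T := by
  have h1 : Group.IsSolvable (S ⊓ T : Subgroup G) :=
    Group.isSolvable_of_isSolvable_injective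
      (f := Subgroup.inclusion (inf_le_left : S ⊓ T ≤ S)) (Subgroup.inclusion_injective _)
  refine Group.isSolvable_of_ker_le_range
    (Subgroup.inclusion (inf_le_right : S ⊓ T ≤ T))
    ((QuotientGroup.mk' S).subgroupMap T) ?_
  intro x hx
  have h2 : (QuotientGroup.mk' S) (x : G) = 1 := congrArg Subtype.val (MonoidHom.mem_ker.1 hx)
  have h3 : (x : G) ∈ S := (QuotientGroup.eq_one_iff _).1 h2
  exact ⟨⟨x, h3, x.2⟩, rfl⟩

theorem solv_sup {G : Type} [Group G] (N S : Subgroup G) [S.Normal]
    (hN : Group.IsSolvable N) (hS : Group.IsSolvable S) :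
    Group.IsSolvable (N ⊔ S : Subgroup G) := by
  refine solv_ext S _ hS ?_
  have h1 : (N ⊔ S).map (QuotientGroup.mk' S) = N.map (QuotientGroup.mk' S) := by
    rw [Subgroup.map_sup, QuotientGroup.map_mk'_self, sup_bot_eq]
  rw [h1]
  exact Group.isSolvable_of_surjective ((QuotientGroup.mk' S).subgroupMap_surjective N)

theorem sol_isSolvable (G : Type) [Group G] [Finite G] : Group.IsSolvable (sol G) := by
  set A : Set (Subgroup G) := {N : Subgroup G | N.Normal ∧ Group.IsSolvable N} with hA
  have hne : A.Nonempty := ⟨⊥, inferInstance, inferInstance⟩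
  obtain ⟨S, hSA, hmax⟩ := (Set.toFinite A).exists_maximal hne
  have hS1 : S.Normal := hSA.1
  have h2 : sol G = S := by
    apply le_antisymm
    · apply sSup_le
      intro N hN
      have hN1 : N.Normal := hN.1
      have h3 : N ⊔ S ∈ A := ⟨inferInstance, solv_sup N S hN.2 hSA.2⟩
      exact le_sup_left.trans (hmax h3 le_sup_right)
    · exact le_sSup hSA
  rw [h2]
  exact hSA.2

theorem le_sol (G : Type) [Group G] (N : Subgroup G) (h : N.Normal)
    (hs : Group.IsSolvable N) : N ≤ sol G := le_sSup ⟨h, hs⟩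

theorem exists_abelian (G : Type) [Group G] [Finite G] (S : Subgroup G) (hS : S.Normal)
    (hs : Group.IsSolvable S) (hne : S ≠ ⊥) :
    ∃ L : Subgroup G, L.Normal ∧ (∀ a ∈ L, ∀ b ∈ L, a * b = b * a) ∧ L ≠ ⊥ := by
  set A : Set (Subgroup G) := {N : Subgroup G | N.Normal ∧ N ≤ S ∧ N ≠ ⊥} with hA
  obtain ⟨L, hL, hmin⟩ := (Set.toFinite A).exists_minimal ⟨S, hS, le_rfl, hne⟩
  have hLn : L.Normal := hL.1
  refine ⟨L, hL.1, ?_, hL.2.2⟩
  have hLs : Group.IsSolvable L := Group.isSolvable_of_isSolvable_injective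
      (f := Subgroup.inclusion hL.2.1) (Subgroup.inclusion_injective _)
  have hc : ⁅L, L⁆ = ⊥ := by
    by_contra hcne
    have h1 : ⁅L, L⁆ ∈ A := ⟨Subgroup.commutator_normal L L,
      (Subgroup.commutator_le_left L L).trans hL.2.1, hcne⟩
    have h2 : L ≤ ⁅L, L⁆ := hmin h1 (Subgroup.commutator_le_left L L)
    have : Nontrivial L := (Subgroup.nontrivial_iff_ne_bot L).2 hL.2.2
    have h3 := Group.IsSolvable.commutator_lt_top_of_nontrivial L
    apply h3.ne
    have h4 : (commutator L).map L.subtype = ⁅L, L⁆ := by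
      rw [commutator_def, Subgroup.map_commutator, ← MonoidHom.range_eq_map, Subgroup.range_subtype]
    rw [eq_top_iff]
    intro x _
    have h5 : (x : G) ∈ (commutator L).map L.subtype := by
      rw [h4]; exact h2 x.2
    obtain ⟨y, hy, hyx⟩ := h5
    have h6 : y = x := Subtype.ext hyx
    rwa [← h6]
  intro a ha b hb
  have h1 := Subgroup.commutator_mem_commutator ha hb
  rw [hc, Subgroup.mem_bot] at h1
  exact commutatorElement_eq_one_iff_mul_comm.1 h1

theorem sol_quot (G : Type) [Group G] [Finite G] : sol (G ⧸ sol G) = ⊥ := by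
  set B : Subgroup (G ⧸ sol G) := sol (G ⧸ sol G) with hB
  set T : Subgroup G := B.comap (QuotientGroup.mk' (sol G)) with hT
  have hmap : T.map (QuotientGroup.mk' (sol G)) = B :=
    Subgroup.map_comap_eq_self_of_surjective (QuotientGroup.mk'_surjective _) B
  have hTn : T.Normal := Subgroup.Normal.comap inferInstance _
  have hTs : Group.IsSolvable T := by
    refine solv_ext (sol G) T (sol_isSolvable G) ?_
    rw [hmap]
    exact sol_isSolvable _
  have h1 : T ≤ sol G := le_sol G T hTn hTs
  rw [eq_bot_iff, ← hmap]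
  refine (Subgroup.map_mono h1).trans ?_
  rw [QuotientGroup.map_mk'_self]

theorem pf_SOL : T_SOL := fun G _ _ =>
  ⟨sol_isSolvable G, fun N h hs => le_sol G N h hs,
    fun hne => exists_abelian G (sol G) inferInstance (sol_isSolvable G) hne, sol_quot G⟩

end Pool.Agent.H63.FI
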